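import Pool.Agent.Helper16.OG.Stmts

set_option autoImplicit false

/-! Row BIP: growing a bipartite graph by complete bipartite pieces. -/

namespace Pool.Agent.Helper16.OG

open Finset

universe u

open scoped Classical in
theorem bip_step {α : Type u} (S : Finset α) (A B : α → Finset α) (l : α)
    (hA : 2 ≤ (A l ∩ S.biUnion A).card) (hB : 2 ≤ (B l ∩ S.biUnion B).card)
    (h : 2 * (S.biUnion A).card + 2 * (S.biUnion B).card ≤
      (S.biUnion (fun k => A k ×ˢ B k)).card + 4) :
    2 * ((insert l S).biUnion A).card + 2 * ((insert l S).biUnion B).card ≤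
      ((insert l S).biUnion (fun k => A k ×ˢ B k)).card + 4 := by
  set AS := S.biUnion A with hAS
  set BS := S.biUnion B with hBS
  set PS := S.biUnion (fun k => A k ×ˢ B k) with hPS
  rw [biUnion_insert, biUnion_insert, biUnion_insert, ← hAS, ← hBS, ← hPS]
  have hPsub : ∀ x ∈ PS, x.1 ∈ AS ∧ x.2 ∈ BS := by
    intro x hx
    rw [hPS, mem_biUnion] at hx
    obtain ⟨k, hk, hx⟩ := hx
    rw [mem_product] at hx
    exact ⟨mem_biUnion.2 ⟨k, hk, hx.1⟩, mem_biUnion.2 ⟨k, hk, hx.2⟩⟩
  have h1 : (A l ∪ AS).card = (A l \ AS).card + AS.card := by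
    rw [← card_union_of_disjoint (disjoint_sdiff_self_left), sdiff_union_self_eq_union]
  have h2 : (B l ∪ BS).card = (B l \ BS).card + BS.card := by
    rw [← card_union_of_disjoint (disjoint_sdiff_self_left), sdiff_union_self_eq_union]
  -- new pairs
  have h3 : (((A l \ AS) ×ˢ (B l ∩ BS)) ∪ ((A l ∩ AS) ×ˢ (B l \ BS))) ∪ PS ⊆
      (A l ×ˢ B l) ∪ PS := by
    intro x hx
    simp only [mem_union, mem_product, mem_sdiff, mem_inter] at hx ⊢
    tauto
  have h4 : Disjoint (((A l \ AS) ×ˢ (B l ∩ BS)) ∪ ((A l ∩ AS) ×ˢ (B l \ BS))) PS := by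
    rw [disjoint_left]
    intro x hx hx'
    have h5 := hPsub x hx'
    simp only [mem_union, mem_product, mem_sdiff, mem_inter] at hx
    tauto
  have h5 : Disjoint ((A l \ AS) ×ˢ (B l ∩ BS)) ((A l ∩ AS) ×ˢ (B l \ BS)) := by
    rw [disjoint_left]
    intro x hx hx'
    simp only [mem_product, mem_sdiff, mem_inter] at hx hx'
    tauto
  have h6 := card_le_card h3
  rw [card_union_of_disjoint h4, card_union_of_disjoint h5, card_product, card_product] at h6
  have h7 : 2 * (A l \ AS).card ≤ (A l \ AS).card * (B l ∩ BS).card := by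
    rw [mul_comm]
    exact Nat.mul_le_mul_left _ hB
  have h8 : 2 * (B l \ BS).card ≤ (A l ∩ AS).card * (B l \ BS).card :=
    Nat.mul_le_mul_right _ hA
  rw [h1, h2]
  omega

theorem st_BIP : ST_BIP.{u} := by
  classical
  intro α K A B hK hAB hconn
  have key : ∀ m : ℕ, 1 ≤ m → m ≤ K.card → ∃ S ⊆ K, S.card = m ∧
      2 * (S.biUnion A).card + 2 * (S.biUnion B).card ≤
        (S.biUnion (fun k => A k ×ˢ B k)).card + 4 := by
    intro m hm
    induction m, hm using Nat.le_induction with
    | base =>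
      intro _
      obtain ⟨k, hk⟩ := hK
      refine ⟨{k}, singleton_subset_iff.2 hk, card_singleton k, ?_⟩
      simp only [singleton_biUnion]
      rw [card_product]
      obtain ⟨h1, h2⟩ := hAB k hk
      obtain ⟨x, hx⟩ := Nat.exists_eq_add_of_le h1
      obtain ⟨y, hy⟩ := Nat.exists_eq_add_of_le h2
      rw [hx, hy]
      nlinarith
    | succ m hm ih =>
      intro hmK
      obtain ⟨S, hSK, hSm, hS⟩ := ih (by omega)
      have hSne : S.Nonempty := card_pos.1 (by omega)
      have hSK' : S ≠ K := by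
        rintro rfl
        omega
      obtain ⟨k, hk, l, hl, hlS, h1, h2⟩ := hconn S hSK hSne hSK'
      refine ⟨insert l S, insert_subset hl hSK, by rw [card_insert_of_notMem hlS, hSm], ?_⟩
      refine bip_step S A B l ?_ ?_ hS
      · refine h1.trans (card_le_card ?_)
        intro x hx
        rw [mem_inter] at hx ⊢
        exact ⟨hx.2, mem_biUnion.2 ⟨k, hk, hx.1⟩⟩
      · refine h2.trans (card_le_card ?_)
        intro x hx
        rw [mem_inter] at hx ⊢
        exact ⟨hx.2, mem_biUnion.2 ⟨k, hk, hx.1⟩⟩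
  obtain ⟨S, hSK, hSm, hS⟩ := key K.card (card_pos.2 hK) le_rfl
  have hSeq : S = K := eq_of_subset_of_card_le hSK hSm.ge
  subst hSeq
  convert hS

end Pool.Agent.Helper16.OG
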